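import Pool.Agent.H59.PC.TM

/-!
# The choice of the level

`b k w` is the context of the level `k` at the window `w`; at a fixed window the levels which are
closed form a chain (a closed deeper level knows the block which follows a closed level). Hence the
sum over the closed levels of the dependences of one variable `z w` on the following block is at
most the entropy of `z w`, and one of `M` levels is good in the mean over the windows.

* `dp_levels`: the chain over the closed levels of one window;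
* `kch`: one level is good in the mean over the windows;
* `kch_card`: one level has few bad windows;
* `kch_cond`: the same with a further variable in the condition.
-/

set_option autoImplicit false

namespace Pool.PC

open Finset Real
open Pool.Agent.H49.Ent Pool.Agent.H32.Dense Pool.STK Pool.KA Pool.KSAT Pool.K2S Pool.S6U

variable {Ω A Γ : Type} [Fintype Ω] {p : Ω → ℝ}

theorem dp_levels_aux (hp : ∀ ω, 0 ≤ p ω) (z : Ω → A) {C D : ℕ → Type}
    (b : (k : ℕ) → Ω → C k) (V : (k : ℕ) → Ω → D k) {K K' : ℝ} (S : Finset ℕ) :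
    (∀ k ∈ S, ∀ k' ∈ S, k < k' → CH p (b k) (b k') ≤ K) →
    (∀ k ∈ S, ∀ k' ∈ S, k < k' → CH p (V k) (fun ω => (b k' ω, b k ω)) ≤ K') →
    ∀ hS : S.Nonempty, ∑ k ∈ S, dp p z (V k) (b k) ≤
      CH p z (b (S.min' hS)) + (S.card - 1 : ℝ) * (K + K') := by
  induction S using Finset.induction_on_min with
  | empty => intro _ _ hS; exact absurd hS (by simp)
  | insert a s ha ih =>
    intro h h' hS
    have hna : a ∉ s := fun hm => lt_irrefl a (ha a hm)
    rw [sum_insert hna, card_insert_of_notMem hna]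
    have hmin : (insert a s).min' hS = a := by
      refine le_antisymm (min'_le _ _ (mem_insert_self a s)) (le_min' _ _ _ fun y hy => ?_)
      rcases mem_insert.1 hy with rfl | hy
      · exact le_rfl
      · exact (ha y hy).le
    rw [hmin]
    rcases s.eq_empty_or_nonempty with rfl | hs
    · have h0 := CH_nonneg hp z (fun ω => (V a ω, b a ω))
      simp only [sum_empty, card_empty, zero_add, Nat.cast_one, sub_self,
        zero_mul, add_zero, dp]
      linarith
    · have hm := min'_mem s hs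
      have i1 := ih (fun k hk k' hk' => h k (mem_insert_of_mem hk) k' (mem_insert_of_mem hk'))
        (fun k hk k' hk' => h' k (mem_insert_of_mem hk) k' (mem_insert_of_mem hk')) hs
      have i2 : dp p z (V a) (b a) ≤ dp p z (b (s.min' hs)) (b a) + K' :=
        dp_le_add_right hp (h' a (mem_insert_self a s) _ (mem_insert_of_mem hm) (ha _ hm))
      have i3 : dp p z (b (s.min' hs)) (b a) ≤ CH p z (b a) - CH p z (b (s.min' hs)) + K :=
        dp_step hp z (b a) (b (s.min' hs))
          (h a (mem_insert_self a s) _ (mem_insert_of_mem hm) (ha _ hm))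
      push_cast
      nlinarith

/-- **The chain over the closed levels.** -/
theorem dp_levels (hp : ∀ ω, 0 ≤ p ω) (z : Ω → A) {C D : ℕ → Type}
    (b : (k : ℕ) → Ω → C k) (V : (k : ℕ) → Ω → D k) {K K' e : ℝ} (hK : 0 ≤ K + K') (he0 : 0 ≤ e)
    (S : Finset ℕ)
    (h : ∀ k ∈ S, ∀ k' ∈ S, k < k' → CH p (b k) (b k') ≤ K)
    (h' : ∀ k ∈ S, ∀ k' ∈ S, k < k' → CH p (V k) (fun ω => (b k' ω, b k ω)) ≤ K')
    (he : ∀ k ∈ S, CH p z (b k) ≤ e) :
    ∑ k ∈ S, dp p z (V k) (b k) ≤ e + S.card * (K + K') := by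
  rcases S.eq_empty_or_nonempty with rfl | hS
  · simpa using he0
  · have h1 := dp_levels_aux hp z b V S h h' hS
    have h2 := he _ (min'_mem S hS)
    nlinarith

/-- **The choice of the level**: one of `M` levels is good in the mean over the windows. -/
theorem kch (hp : ∀ ω, 0 ≤ p ω) {M : ℕ} (hM : 0 < M) {Az : ℕ → Type}
    (z : (w : ℕ) → Ω → Az w) {C D : ℕ → ℕ → Type}
    (b : (k w : ℕ) → Ω → C k w) (V : (k w : ℕ) → Ω → D k w) {K K' e : ℝ} (hK : 0 ≤ K + K')
    (he0 : 0 ≤ e) (W : Finset ℕ) (P : ℕ → ℕ → Prop) [∀ k w, Decidable (P k w)]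
    (h : ∀ w ∈ W, ∀ k k', k < k' → k' < M → P k w → P k' w → CH p (b k w) (b k' w) ≤ K)
    (h' : ∀ w ∈ W, ∀ k k', k < k' → k' < M → P k w → P k' w →
      CH p (V k w) (fun ω => (b k' w ω, b k w ω)) ≤ K')
    (he : ∀ w ∈ W, ∀ k, k < M → P k w → CH p (z w) (b k w) ≤ e) :
    ∃ k < M, ∑ w ∈ W.filter (fun w => P k w), dp p (z w) (V k w) (b k w) ≤
      W.card * (e / M + (K + K')) := by
  have hMr : (0 : ℝ) < M := by exact_mod_cast hM
  obtain ⟨k, hk, h1⟩ := level hM W P (fun k w => dp p (z w) (V k w) (b k w))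
    (s := e + M * (K + K')) (by
      intro w hw
      refine (dp_levels hp (z w) (fun k => b k w) (fun k => V k w) hK he0
        ((range M).filter (fun k => P k w)) ?_ ?_ ?_).trans ?_
      · intro k hk k' hk' hkk
        rw [mem_filter, mem_range] at hk hk'
        exact h w hw k k' hkk hk'.1 hk.2 hk'.2
      · intro k hk k' hk' hkk
        rw [mem_filter, mem_range] at hk hk'
        exact h' w hw k k' hkk hk'.1 hk.2 hk'.2
      · intro k hk
        rw [mem_filter, mem_range] at hk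
        exact he w hw k hk.1 hk.2
      · have c1 : (((range M).filter (fun k => P k w)).card : ℝ) ≤ M := by
          have := card_filter_le (range M) (fun k => P k w)
          rw [card_range] at this
          exact_mod_cast this
        nlinarith)
  refine ⟨k, hk, h1.trans (le_of_eq ?_)⟩
  field_simp

/-- The number of the bad windows of the chosen level. -/
theorem kch_card (hp : ∀ ω, 0 ≤ p ω) {M : ℕ} (hM : 0 < M) {Az : ℕ → Type}
    (z : (w : ℕ) → Ω → Az w) {C D : ℕ → ℕ → Type}
    (b : (k w : ℕ) → Ω → C k w) (V : (k w : ℕ) → Ω → D k w) {K K' e : ℝ} (hK : 0 ≤ K + K')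
    (he0 : 0 ≤ e) (W : Finset ℕ) (P : ℕ → ℕ → Prop) [∀ k w, Decidable (P k w)]
    (h : ∀ w ∈ W, ∀ k k', k < k' → k' < M → P k w → P k' w → CH p (b k w) (b k' w) ≤ K)
    (h' : ∀ w ∈ W, ∀ k k', k < k' → k' < M → P k w → P k' w →
      CH p (V k w) (fun ω => (b k' w ω, b k w ω)) ≤ K')
    (he : ∀ w ∈ W, ∀ k, k < M → P k w → CH p (z w) (b k w) ≤ e) {δ : ℝ} (hδ : 0 < δ) :
    ∃ k < M, ∀ B ⊆ W.filter (fun w => P k w), (∀ w ∈ B, δ ≤ dp p (z w) (V k w) (b k w)) →
      (B.card : ℝ) ≤ W.card * ((e / M + (K + K')) / δ) := by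
  obtain ⟨k, hk, h1⟩ := kch hp hM z b V hK he0 W P h h' he
  refine ⟨k, hk, fun B hB hbig => ?_⟩
  have h2 := card_big (W.filter (fun w => P k w)) (fun w => dp p (z w) (V k w) (b k w))
    (δ := δ) (fun w _ => dp_nonneg hp _ _ _) h1 B hB hbig
  rw [← mul_div_assoc, le_div_iff₀ hδ]
  exact h2

/-- The choice of the level with a further variable in the condition. -/
theorem kch_cond (hp : ∀ ω, 0 ≤ p ω) {M : ℕ} (hM : 0 < M) {Az Gz : ℕ → Type}
    (z : (w : ℕ) → Ω → Az w) (G : (w : ℕ) → Ω → Gz w) {C D : ℕ → ℕ → Type}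
    (b : (k w : ℕ) → Ω → C k w) (V : (k w : ℕ) → Ω → D k w) {K K' e : ℝ} (hK : 0 ≤ K + K')
    (he0 : 0 ≤ e) (W : Finset ℕ) (P : ℕ → ℕ → Prop) [∀ k w, Decidable (P k w)]
    (h : ∀ w ∈ W, ∀ k k', k < k' → k' < M → P k w → P k' w → CH p (b k w) (b k' w) ≤ K)
    (h' : ∀ w ∈ W, ∀ k k', k < k' → k' < M → P k w → P k' w →
      CH p (V k w) (fun ω => (b k' w ω, b k w ω)) ≤ K')
    (he : ∀ w ∈ W, ∀ k, k < M → P k w → CH p (z w) (fun ω => (b k w ω, G w ω)) ≤ e) :
    ∃ k < M, ∑ w ∈ W.filter (fun w => P k w),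
      dp p (z w) (V k w) (fun ω => (b k w ω, G w ω)) ≤ W.card * (e / M + (K + K')) := by
  refine kch hp hM z (fun k w ω => (b k w ω, G w ω)) V hK he0 W P ?_ ?_ he
  · intro w hw k k' h1 h2 h3 h4
    have e1 := CH_chain hp (b k w) (G w) (fun ω => (b k' w ω, G w ω))
    have e2 : CH p (G w) (fun ω => (b k' w ω, G w ω)) = 0 :=
      CH_eq_zero hp (fun _ _ _ _ e => (Prod.ext_iff.mp e).2)
    have e3 : CH p (b k w) (fun ω => (G w ω, (b k' w ω, G w ω))) ≤ CH p (b k w) (b k' w) :=
      CH_mono_cond hp (fun _ _ _ _ e => (Prod.ext_iff.mp (Prod.ext_iff.mp e).2).1)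
    have := h w hw k k' h1 h2 h3 h4
    linarith
  · intro w hw k k' h1 h2 h3 h4
    refine le_trans (CH_mono_cond hp ?_) (h' w hw k k' h1 h2 h3 h4)
    intro ω ω' _ _ e
    have e1 := Prod.ext_iff.mp e
    exact Prod.ext (Prod.ext_iff.mp e1.1).1 (Prod.ext_iff.mp e1.2).1

end Pool.PC
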